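import Pool.Agent.Y944.ETR.Eig

/-!
Project ETR (MP_44674b_co): the dimension count (S_EIGADJ → S_DIMS).
-/

set_option autoImplicit false
set_option linter.unusedSectionVars false

namespace Pool.Agent.Y944.ETR

open Finset Pool.Agent.Results.MP_44674b_co.WreathExact Pool.Agent.Y649.ETR

variable {X : Type} [Fintype X] [DecidableEq X]

/-- the range of a matrix -/
noncomputable def Fx (E : Matrix X X ℂ) : Submodule ℂ (X → ℂ) :=
  LinearMap.range (Matrix.toLin' E)

lemma idem_lin {E : Matrix X X ℂ} (h : E * E = E) : IsIdempotentElem (Matrix.toLin' E) := by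
  change Matrix.toLin' E * Matrix.toLin' E = Matrix.toLin' E
  rw [Module.End.mul_eq_comp, ← Matrix.toLin'_mul, h]

lemma fix_of_mem {E : Matrix X X ℂ} (h : E * E = E) {t : X → ℂ} (ht : t ∈ Fx E) :
    E.mulVec t = t := by
  obtain ⟨w, rfl⟩ := ht
  rw [Matrix.toLin'_apply, Matrix.mulVec_mulVec, h]

lemma finrank_Fx {E : Matrix X X ℂ} (h : E * E = E) :
    (Module.finrank ℂ (Fx E) : ℂ) = Matrix.trace E := by
  rw [← Matrix.trace_toLin'_eq, (LinearMap.IsIdempotentElem.isProj_range _ (idem_lin h)).trace]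
  rfl

/-- extension by zero -/
def ex (P : X → Prop) [DecidablePred P] : ({x // P x} → ℂ) →ₗ[ℂ] (X → ℂ) where
  toFun v x := if h : P x then v ⟨x, h⟩ else 0
  map_add' v w := by ext x; by_cases h : P x <;> simp [h]
  map_smul' c v := by ext x; by_cases h : P x <;> simp [h]

lemma ex_pos {P : X → Prop} [DecidablePred P] (v : {x // P x} → ℂ) (x : {x // P x}) :
    ex P v x.1 = v x := by
  change (if h : P x.1 then v ⟨x.1, h⟩ else 0) = v x
  rw [dif_pos x.2]

lemma ex_neg {P : X → Prop} [DecidablePred P] (v : {x // P x} → ℂ) {x : X} (hx : ¬ P x) :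
    ex P v x = 0 := dif_neg hx

lemma sum_ex {P : X → Prop} [DecidablePred P] (v : {x // P x} → ℂ) (g : X → ℂ) :
    ∑ x, g x * ex P v x = ∑ x : {x // P x}, g x.1 * v x := by
  rw [← Fintype.sum_subtype_add_sum_subtype P (fun x => g x * ex P v x)]
  have h0 : ∑ x : {x // ¬ P x}, g x.1 * ex P v x.1 = 0 :=
    Finset.sum_eq_zero fun x _ => by rw [ex_neg v x.2, mul_zero]
  rw [h0, add_zero]
  exact Finset.sum_congr rfl fun x _ => by rw [ex_pos]

lemma exists_nbr (S : SymScheme X 2) (u : X) (i : Fin (2 + 1)) : ∃ x, S.c u x = i := by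
  obtain ⟨a, b, hab⟩ := S.surj i
  have h := S.regular i i a a u u (by rw [(S.diag a a).2 rfl, (S.diag u u).2 rfl])
  have hpos : 0 < (univ.filter fun z => S.c a z = i ∧ S.c z a = i).card :=
    Finset.card_pos.2 ⟨b, Finset.mem_filter.2 ⟨Finset.mem_univ _, hab, by rw [S.symm]; exact hab⟩⟩
  rw [h] at hpos
  obtain ⟨z, hz⟩ := Finset.card_pos.1 hpos
  exact ⟨z, (Finset.mem_filter.1 hz).2.1⟩

lemma Jn_mulVec (v : X → ℂ) (x : X) :
    (Jn X).mulVec v x = (Fintype.card X : ℂ)⁻¹ * ∑ y, v y := by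
  change ∑ y, Jn X x y * v y = _
  rw [Finset.mul_sum]
  exact Finset.sum_congr rfl fun y _ => by rw [Jn_apply]

theorem dims : S_EIGADJ → S_DIMS := by
  classical
  intro hEA X _ _ S E1 E2 h u i j hi hj hij hyp1 hyp2
  obtain ⟨φ, hφ⟩ := bm_iff.1 h.mem1
  obtain ⟨b, e, hadj, -⟩ := (hEA X S E1 E2 h).2 i hi u
  let P : X → Prop := fun x => S.c u x = i
  let s : ({x // P x} → ℂ) →ₗ[ℂ] ℂ := ∑ x, LinearMap.proj x
  have hs_apply : ∀ v, s v = ∑ x, v x := by
    intro v
    simp [s, LinearMap.sum_apply]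
  obtain ⟨x0, hx0⟩ := exists_nbr S u i
  have hs : s ≠ 0 := by
    intro h0
    have h1 := congrArg (fun f => f (Pi.single ⟨x0, hx0⟩ 1)) h0
    simp only [LinearMap.zero_apply] at h1
    rw [hs_apply, Finset.sum_pi_single' ] at h1
    simp at h1
  let ev : Fx E1 →ₗ[ℂ] ℂ := (LinearMap.proj u) ∘ₗ (Fx E1).subtype
  have hev_apply : ∀ t : Fx E1, ev t = t.1 u := fun t => rfl
  have hphi0 : φ 0 ≠ 0 := by
    intro h0
    have htr : Matrix.trace E1 = 0 := by
      unfold Matrix.trace
      refine Finset.sum_eq_zero fun x _ => ?_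
      rw [Matrix.diag_apply, hφ, (S.diag x x).2 rfl, h0]
    have hz := LinearMap.IsIdempotentElem.eq_zero_of_trace_eq_zero (idem_lin h.sq1)
      (by rw [Matrix.trace_toLin'_eq, htr])
    exact h.ne1 ((map_eq_zero_iff _ (Matrix.toLin' (R := ℂ)).injective).1 hz)
  have hev : ev ≠ 0 := by
    intro h0
    have h1 := congrArg (fun f => f ⟨Matrix.toLin' E1 (Pi.single u 1),
      LinearMap.mem_range_self _ _⟩) h0
    simp only [LinearMap.zero_apply] at h1
    rw [hev_apply] at h1
    simp only [Matrix.toLin'_apply, Matrix.mulVec_single_one] at h1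
    have h2 : E1 u u = 0 := h1
    rw [hφ, (S.diag u u).2 rfl] at h2
    exact hphi0 h2
  -- the first injection
  let g1 : ({x // P x} → ℂ) →ₗ[ℂ] Fx E1 :=
    LinearMap.codRestrict (Fx E1) ((Matrix.toLin' E1) ∘ₗ ex P) fun v =>
      LinearMap.mem_range_self _ _
  have hg1 : ∀ v, (g1 v).1 = E1.mulVec (ex P v) := fun v => rfl
  have hsum : ∀ v ∈ LinearMap.ker s, ∑ x, ex P v x = 0 := by
    intro v hv
    have := sum_ex v (fun _ => (1 : ℂ))
    simp only [one_mul] at this
    rw [this, ← hs_apply]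
    exact hv
  have hmap1 : ∀ v ∈ LinearMap.ker s, g1 v ∈ LinearMap.ker ev := by
    intro v hv
    rw [LinearMap.mem_ker, hev_apply, hg1]
    change ∑ x, E1 u x * ex P v x = 0
    rw [sum_ex]
    have h1 : ∀ x : {x // P x}, E1 u x.1 * v x = φ i * v x := fun x => by
      rw [hφ]
      have : S.c u x.1 = i := x.2
      rw [this]
    rw [Finset.sum_congr rfl fun x _ => h1 x, ← Finset.mul_sum, ← hs_apply]
    rw [LinearMap.mem_ker.1 hv, mul_zero]
  have hinj1 : Function.Injective (g1.restrict hmap1) := by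
    refine (injective_iff_map_eq_zero (g1.restrict hmap1)).2 ?_
    rintro ⟨v, hv⟩ h0
    have h1 : E1.mulVec (ex P v) = 0 := by
      have := congrArg (fun t => (t.1 : Fx E1).1) h0
      exact this
    have h2 : E2.mulVec (ex P v) = ex P v := by
      have h3 : (Jn X + E1 + E2).mulVec (ex P v) = ex P v := by
        rw [h.sum, Matrix.one_mulVec]
      rw [Matrix.add_mulVec, Matrix.add_mulVec, h1, add_zero] at h3
      have h4 : (Jn X).mulVec (ex P v) = 0 := by
        ext x
        rw [Jn_mulVec, hsum v hv, mul_zero]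
        rfl
      rwa [h4, zero_add] at h3
    have h5 := hyp1 (ex P v) (fun x hx => ex_neg v hx) h2
    apply Subtype.ext
    funext x
    have := congrFun h5 x.1
    rw [ex_pos] at this
    exact this
  -- the second injection
  let g2 : Fx E1 →ₗ[ℂ] ({x // P x} → ℂ) :=
    (LinearMap.funLeft ℂ ℂ (Subtype.val : {x // P x} → X)) ∘ₗ (Fx E1).subtype
  have hg2 : ∀ (t : Fx E1) (x : {x // P x}), g2 t x = t.1 x.1 := fun t x => rfl
  have hmap2 : ∀ t ∈ LinearMap.ker ev, g2 t ∈ LinearMap.ker s := by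
    intro t ht
    have hfix := fix_of_mem h.sq1 t.2
    have htu : t.1 u = 0 := ht
    rw [LinearMap.mem_ker, hs_apply]
    have h1 : ∑ x : {x // P x}, g2 t x = (adj S.c i).mulVec t.1 u := by
      change _ = ∑ y, adj S.c i u y * t.1 y
      rw [← Fintype.sum_subtype_add_sum_subtype P (fun y => adj S.c i u y * t.1 y)]
      have h0 : ∑ x : {x // ¬ P x}, adj S.c i u x.1 * t.1 x.1 = 0 :=
        Finset.sum_eq_zero fun x _ => by
          rw [adj_apply, if_neg x.2, zero_mul]
      rw [h0, add_zero]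
      refine Finset.sum_congr rfl fun x _ => ?_
      rw [adj_apply, if_pos x.2, one_mul, hg2]
    rw [h1, hadj]
    have hJ : (Jn X).mulVec t.1 = 0 := by
      rw [← hfix, Matrix.mulVec_mulVec, h.j1, Matrix.zero_mulVec]
    have h2 : E2.mulVec t.1 = 0 := by
      rw [← hfix, Matrix.mulVec_mulVec, h.m21, Matrix.zero_mulVec]
    rw [Matrix.add_mulVec, Matrix.add_mulVec, Matrix.smul_mulVec, Matrix.smul_mulVec,
      Matrix.smul_mulVec, hJ, h2, hfix]
    simp [htu]
  have key2 : ∀ t : X → ℂ, E1.mulVec t = t → t u = 0 → (∀ x : {x // P x}, t x.1 = 0) →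
      t = 0 := by
    intro t hfix htu h1
    refine hyp2 t ?_ hfix
    intro x hx
    by_cases hxi : S.c u x = i
    · exact h1 ⟨x, hxi⟩
    · have hx0 : S.c u x = 0 := by
        generalize S.c u x = q at hx hxi
        revert hi hj hij hx hxi
        clear * -
        revert i j q
        decide
      rw [(S.diag u x).1 hx0] at htu
      exact htu
  have hinj2 : Function.Injective (g2.restrict hmap2) := by
    intro t t' h0
    have h1 : t.1.1 - t'.1.1 = 0 := by
      refine key2 _ ?_ ?_ ?_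
      · rw [Matrix.mulVec_sub, fix_of_mem h.sq1 t.1.2, fix_of_mem h.sq1 t'.1.2]
      · have ht : t.1.1 u = 0 := t.2
        have ht' : t'.1.1 u = 0 := t'.2
        rw [Pi.sub_apply, ht, ht', sub_zero]
      · intro x
        have := congrFun (congrArg Subtype.val h0) x
        have h2 : t.1.1 x.1 = t'.1.1 x.1 := this
        rw [Pi.sub_apply, h2, sub_self]
    apply Subtype.ext
    apply Subtype.ext
    exact sub_eq_zero.1 h1
  have hle1 := LinearMap.finrank_le_finrank_of_injective hinj1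
  have hle2 := LinearMap.finrank_le_finrank_of_injective hinj2
  have hd1 := Module.Dual.finrank_ker_add_one_of_ne_zero (f := s) hs
  have hd2 := Module.Dual.finrank_ker_add_one_of_ne_zero (f := ev) hev
  have hcard : Module.finrank ℂ ({x // P x} → ℂ) = val S.c u i := by
    rw [Module.finrank_fintype_fun_eq_card, Fintype.card_subtype]
    rfl
  have hfin : val S.c u i = Module.finrank ℂ (Fx E1) := by
    rw [← hcard, ← hd1, ← hd2]
    exact congrArg (· + 1) (le_antisymm hle1 hle2)
  rw [hfin, finrank_Fx h.sq1]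

end Pool.Agent.Y944.ETR
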