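import Pool.Agent.Y649.ETR.Stm

/-!
Project ETR (MP_44674b_co): spectral decomposition in two-class schemes (S_EIGADJ) and the
dimension count (S_EIGADJ → S_DIMS).
-/

set_option autoImplicit false
set_option linter.unusedSectionVars false

namespace Pool.Agent.Y944.ETR

open Finset Pool.Agent.Results.MP_44674b_co.WreathExact Pool.Agent.Y649.ETR

variable {X : Type} [Fintype X] [DecidableEq X]

lemma nonempty (S : SymScheme X 2) : Nonempty X := by
  obtain ⟨x, _⟩ := S.surj 0
  exact ⟨x⟩

lemma card_ne (S : SymScheme X 2) : (Fintype.card X : ℂ) ≠ 0 := by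
  have := nonempty S
  exact_mod_cast Fintype.card_ne_zero

lemma Jn_apply (x y : X) : Jn X x y = (Fintype.card X : ℂ)⁻¹ := by
  change (Fintype.card X : ℂ)⁻¹ * 1 = _
  rw [mul_one]

lemma Jn_sq (S : SymScheme X 2) : Jn X * Jn X = Jn X := by
  ext x y
  rw [Matrix.mul_apply]
  simp only [Jn_apply, Finset.sum_const, Finset.card_univ, nsmul_eq_mul]
  have := card_ne S
  field_simp

lemma Jn_ne (S : SymScheme X 2) : Jn X ≠ 0 := by
  obtain ⟨x⟩ := nonempty S
  intro h
  have h1 := congrFun (congrFun h x) x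
  rw [Jn_apply] at h1
  exact inv_ne_zero (card_ne S) h1

lemma Jn_mem (S : SymScheme X 2) : Jn X ∈ boseMesner S.c :=
  bm_iff.2 ⟨fun _ => (Fintype.card X : ℂ)⁻¹, fun x y => Jn_apply x y⟩

theorem decomp (S : SymScheme X 2) {E1 E2 : Matrix X X ℂ} (h : IsEig S E1 E2)
    (M : Matrix X X ℂ) (hM : M ∈ boseMesner S.c) :
    ∃ a b e : ℂ, M = a • Jn X + b • E1 + e • E2 := by
  classical
  set v : Fin 3 → Matrix X X ℂ := ![Jn X, E1, E2] with hv
  have hli : LinearIndependent ℂ v := by
    rw [Fintype.linearIndependent_iff]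
    intro g hg
    rw [Fin.sum_univ_three] at hg
    change g 0 • Jn X + g 1 • E1 + g 2 • E2 = 0 at hg
    have h0 : g 0 = 0 := by
      have := congrArg (fun A => A * Jn X) hg
      simp only [add_mul, Matrix.smul_mul, Jn_sq S, h.k1, h.k2, smul_zero, add_zero,
        zero_mul] at this
      exact (smul_eq_zero.1 this).resolve_right (Jn_ne S)
    have h1 : g 1 = 0 := by
      have := congrArg (fun A => A * E1) hg
      simp only [add_mul, Matrix.smul_mul, h.j1, h.sq1, h.m21, smul_zero, add_zero, zero_add,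
        zero_mul] at this
      exact (smul_eq_zero.1 this).resolve_right h.ne1
    have h2 : g 2 = 0 := by
      have := congrArg (fun A => A * E2) hg
      simp only [add_mul, Matrix.smul_mul, h.j2, h.sq2, h.m12, smul_zero, add_zero, zero_add,
        zero_mul] at this
      exact (smul_eq_zero.1 this).resolve_right h.ne2
    intro i
    fin_cases i
    · exact h0
    · exact h1
    · exact h2
  have hle : Submodule.span ℂ (Set.range v) ≤ boseMesner S.c := by
    rw [Submodule.span_le]
    rintro _ ⟨i, rfl⟩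
    fin_cases i
    · exact Jn_mem S
    · exact h.mem1
    · exact h.mem2
  have hfin : Module.finrank ℂ (boseMesner S.c) ≤
      Module.finrank ℂ (Submodule.span ℂ (Set.range v)) := by
    rw [finrank_span_eq_card hli]
    exact finrank_range_le_card (R := ℂ) (adj S.c)
  have heq := Submodule.eq_of_le_of_finrank_le hle hfin
  rw [← heq, Submodule.mem_span_range_iff_exists_fun] at hM
  obtain ⟨c, hc⟩ := hM
  rw [Fin.sum_univ_three] at hc
  exact ⟨c 0, c 1, c 2, hc.symm⟩

lemma adj_apply (S : SymScheme X 2) (i : Fin (2 + 1)) (x y : X) :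
    adj S.c i x y = if S.c x y = i then 1 else 0 := rfl

lemma adj_mul_Jn (S : SymScheme X 2) (i : Fin (2 + 1)) (x y : X) :
    (adj S.c i * Jn X) x y = (val S.c x i : ℂ) * (Fintype.card X : ℂ)⁻¹ := by
  rw [Matrix.mul_apply]
  simp only [Jn_apply, adj_apply]
  rw [← Finset.sum_mul, Finset.sum_boole]
  rfl

theorem main : S_EIGADJ := by
  intro X _ _ S E1 E2 h
  refine ⟨fun M hM => decomp S h M hM, ?_⟩
  intro i hi u
  obtain ⟨a, b, e, habe⟩ := decomp S h (adj S.c i) (Submodule.subset_span ⟨i, rfl⟩)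
  have hn := card_ne S
  have ha : a = (val S.c u i : ℂ) := by
    have h1 : (adj S.c i * Jn X) u u = a * (Fintype.card X : ℂ)⁻¹ := by
      rw [habe]
      simp only [add_mul, Matrix.smul_mul, Jn_sq S, h.k1, h.k2, smul_zero, add_zero]
      rw [Matrix.smul_apply, Jn_apply, smul_eq_mul]
    rw [adj_mul_Jn] at h1
    exact (mul_right_cancel₀ (inv_ne_zero hn) h1).symm
  refine ⟨b, e, by rw [← ha]; exact habe, ?_⟩
  rintro rfl
  have hE : E1 + E2 = 1 - Jn X := by
    rw [← h.sum]; abel
  have hadj : adj S.c i = a • Jn X + b • (1 - Jn X) := by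
    rw [habe, ← hE, smul_add, add_assoc]
  have key : ∀ x y, x ≠ y → adj S.c i x y = (a - b) * (Fintype.card X : ℂ)⁻¹ := by
    intro x y hxy
    rw [hadj, Matrix.add_apply, Matrix.smul_apply, Matrix.smul_apply, Matrix.sub_apply,
      Jn_apply, Matrix.one_apply_ne hxy]
    simp only [smul_eq_mul]
    ring
  obtain ⟨j, hj0, hji⟩ : ∃ j : Fin (2 + 1), j ≠ 0 ∧ j ≠ i := by
    fin_cases i
    · exact absurd rfl hi
    · exact ⟨2, by decide, by decide⟩
    · exact ⟨1, by decide, by decide⟩
  obtain ⟨x, y, hxy⟩ := S.surj i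
  obtain ⟨x', y', hxy'⟩ := S.surj j
  have hne : x ≠ y := fun hh => hi (by rw [← hxy]; exact (S.diag x y).2 hh)
  have hne' : x' ≠ y' := fun hh => hj0 (by rw [← hxy']; exact (S.diag x' y').2 hh)
  have h1 := key x y hne
  have h2 := key x' y' hne'
  rw [adj_apply, if_pos hxy] at h1
  rw [adj_apply, if_neg (by rw [hxy']; exact hji)] at h2
  rw [← h2] at h1
  exact one_ne_zero h1

end Pool.Agent.Y944.ETR
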